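import Pool.Agent.Helper79.GT.St6

/-!
# Project GT (MP_c2d095_lc), module EVS: territory and scores are E2
-/

set_option autoImplicit false

namespace Pool.Agent.Helper5.GT

open Pool.Agent.Helper79.GT Pool.Agent.Helper19.SK Pool.Agent.Helper73.DC Pool.Agent.Helper79.GS
open Finset
open scoped Classical

namespace EVS

private theorem e_ite' {p : List (Fin 5) → (ℕ → ℕ) → Prop} {F G : VF (Fin 5)}
    {inst : ∀ w v, Decidable (p w v)} (hp : E2P p) (hF : E2 F) (hG : E2 G) :
    E2 (fun w v => @ite ℕ (p w v) (inst w v) (F w v) (G w v)) := by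
  convert e_ite hp hF hG

private theorem e_ter (hEB1 : StEB1) {N n C U : VF (Fin 5)} (hN : E2 N) (hn : E2 n) (hC : E2 C)
    (hU : E2 U) : E2 (fun w v => terN (N w v) (n w v) (C w v) (U w v)) := by
  unfold terN
  refine e_sum (T := fun w i v => if dg 3 (U w v) i = 0 ∧
    tchN (N w v) (n w v) (U w v) i (colN (C w v)) ∧
      ¬ tchN (N w v) (n w v) (U w v) i (colN (1 - C w v)) then 1 else 0)
    (H := fun w v => n w v * n w v) ?_ (e_mul hn hn)
  exact e_ite' (e_and (e_eq (e_dg (e_con 3) (e_sh hU) (e_get 0)) (e_con 0)) (e_and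
      (hEB1.2.2 _ _ _ _ _ (e_sh hN) (e_sh hn) (e_sh hU) (e_get 0) (hEB1.2.1 _ (e_sh hC)))
      (e_not (hEB1.2.2 _ _ _ _ _ (e_sh hN) (e_sh hn) (e_sh hU) (e_get 0)
        (hEB1.2.1 _ (e_sub (e_con 1) (e_sh hC))))))) (e_con 1) (e_con 0)

end EVS

open EVS

theorem hEVS (hEB1 : StEB1) (hEB2 : StEB2) (hEVW : StEVW) : Pool.Agent.Helper79.GT.StEVS := by
  obtain ⟨hnV, -, -, hkb, hkw, -, hBB, -, -, hPT, -⟩ := hEVW
  refine ⟨fun N n C U hN hn hC hU => e_ter hEB1 hN hn hC hU, fun tc N C U hN hC hU => ?_⟩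
  obtain ⟨hPP, hTT, -⟩ := hPT N hN
  have hum : E2 (fun w v => U w v % PP (N w v) w) := e_mod hU hPP
  have hud : E2 (fun w v => U w v / PP (N w v) w) := e_div hU hPP
  have hx : E2 (fun w v => xN tc (N w v) w (U w v)) := by
    unfold xN
    cases tc with
    | true =>
      simp only [if_true]
      exact e_add (e_add (e_ter hEB1 hN hnV (e_con 1) hum) hkb) hud
    | false =>
      simp only [Bool.false_eq_true, if_false]
      exact (hEB2.2.2.2 _ _ _ _ hN hnV (e_con 1) hum).1
  have hy : E2 (fun w v => yN tc (N w v) w (U w v)) := by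
    unfold yN
    cases tc with
    | true =>
      simp only [if_true]
      exact e_add (e_add (e_ter hEB1 hN hnV (e_con 0) hum) hkw) hBB
    | false =>
      simp only [Bool.false_eq_true, if_false]
      exact (hEB2.2.2.2 _ _ _ _ hN hnV (e_con 0) hum).1
  unfold arV
  exact e_ite' (e_lt hU hTT)
    (e_ite' (e_lt hy hx)
      (e_ite' (e_eq hC (e_con 1))
        (e_mul (e_con 4) (e_div (e_sub (e_add (e_sub hx hy) (e_con (gV tc))) (e_con 1))
          (e_con (gV tc)))) (e_con 0))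
      (e_ite' (e_eq hC (e_con 1)) (e_con 0)
        (e_mul (e_con 4) (e_div (e_sub hy hx) (e_con (gV tc))))))
    (e_ite' (e_and (e_eq hU (e_add hTT (e_con 1))) (e_eq hC (e_con 1))) (e_con 4) (e_con 0))

end Pool.Agent.Helper5.GT
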