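import Pool.Agent.Helper79.GT.St2

/-!
# Project GT (MP_c2d095_lc), module WPR: projection of the walks in the window
-/

set_option autoImplicit false

namespace Pool.Agent.Helper5.GT

open Pool.Agent.Helper79.GT Pool.Agent.Helper19.SK Pool.Agent.Helper79.GS

/-- the two changes of a reversible placement cancel -/
private theorem cp_add {P : Type} {A : Gm P} {pt : P → ℤ} {g N : ℕ} (hk : KoLaw A pt g N)
    (c : Bool) (x y : P) (h1 : A.mv c x y) (h2 : A.mv (!c) y x) :
    A.cp c x y + A.cp (!c) y x = 0 := by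
  cases c with
  | true =>
    obtain ⟨-, h3, h4, -⟩ := hk.ko x y h1 h2
    show A.cp true x y + A.cp false y x = 0
    rw [h3, h4]
    norm_num
  | false =>
    obtain ⟨-, h3, h4, -⟩ := hk.ko y x h2 h1
    show A.cp false x y + A.cp true y x = 0
    rw [h3, h4]
    norm_num

private theorem proj {P : Type} {A : Gm P} {D : Bool → Bool → P → P → Prop} {pt : P → ℤ}
    {g N M B : ℕ} {d₀ : ℤ} (hk : KoLaw A pt g N) (a : P × Fin M) (k : ℕ) (z : (P × Fin M) ⊕ Bool)
    (h : Rch (wA A D g M B d₀) (Sum.inl a) k z) :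
    ∀ a' : P × Fin M, z = Sum.inl a' → Rch (uA A D pt) a.1 k a'.1 := by
  induction h with
  | refl =>
    intro a' ha'
    have h1 : a = a' := Sum.inl.inj ha'
    rw [h1]
    exact Rch.refl
  | rev k c x y _ hm hr ih =>
    intro a' ha'
    subst ha'
    rcases x with x0 | c'
    · exact Rch.rev k c x0.1 a'.1 (ih x0 rfl) hm.1 hr.1
    · exact absurd hm id
  | irr k c x y _ hm hn ih =>
    intro a' ha'
    subst ha'
    rcases x with x0 | c'
    · refine Rch.irr k c x0.1 a'.1 (ih x0 rfl) hm.1 fun hu => ?_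
      have h3 : und A D (!c) a'.1 x0.1 := hu
      apply hn
      refine ⟨h3, ?_⟩
      have h1 := cp_add hk c x0.1 a'.1 hm.1.1 h3.1
      have h2 : (a'.2.val : ℤ) = x0.2.val + A.cp c x0.1 a'.1 := hm.2
      rw [h2]
      linarith
    · exact absurd hm id

private theorem last {P : Type} {A : Gm P} {D : Bool → Bool → P → P → Prop}
    {g M B : ℕ} {d₀ : ℤ} (a : P × Fin M) (k : ℕ) (z : (P × Fin M) ⊕ Bool)
    (h : Rch (wA A D g M B d₀) (Sum.inl a) k z) (c : Bool) (hz : z = Sum.inr c) :
    ∃ k' a', k = k' + 1 ∧ Rch (wA A D g M B d₀) (Sum.inl a) k' (Sum.inl a') := by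
  cases h with
  | refl => exact absurd hz (by simp)
  | rev k c' x y h1 hm hr =>
    subst hz
    exact absurd hr id
  | irr k c' x y h1 hm hn =>
    subst hz
    rcases x with x0 | c''
    · exact ⟨k, x0, rfl, h1⟩
    · exact absurd hm id

theorem hWPR : Pool.Agent.Helper79.GT.StWPR := by
  intro P A D pt g N M B d₀ hk a k
  exact ⟨fun a' h => proj hk a k _ h a' rfl, fun c h => last a k _ h c rfl⟩

end Pool.Agent.Helper5.GT
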